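import Pool.Agent.W784.RR.Defs
import Pool.Agent.Helper88.RB.P_UR_smooth
import Pool.Agent.Helper88.RB.P_GR_pos

set_option autoImplicit false
open MeasureTheory Set Filter Topology
open scoped ENNReal NNReal

namespace Pool.Agent.W363.RR

open Pool.Agent.Helper88.RB Pool.Agent.W784.RR

theorem integ {n : ℕ} {S : Set (E n)} (hS : IsCompact S) {ν : Measure (E n)} [IsFiniteMeasure ν]
    (hν : ν Sᶜ = 0) {F : Type} [NormedAddCommGroup F] (f : E n → F)
    (hf : ContinuousOn f S) : Integrable f ν := by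
  have hae : ∀ᵐ w ∂ν, w ∈ S := by rw [ae_iff]; exact hν
  have hres : ν.restrict S = ν := Measure.restrict_eq_self_of_ae_mem hae
  have := hf.integrableOn_compact (μ := ν) hS
  rwa [IntegrableOn, hres] at this

theorem rho_pos {n : ℕ} {S : Set (E n)} {x : E n} {y : ℝ} (hx : x ∉ S ∨ y ≠ 0) :
    ∀ w ∈ S, 0 < ‖x - w‖ ^ 2 + y ^ 2 := by
  intro w hw
  rcases hx with hx | hy
  · have h1 : x - w ≠ 0 := by
      intro h
      exact hx (by rw [sub_eq_zero.1 h]; exact hw)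
    have h2 : 0 < ‖x - w‖ := norm_pos_iff.2 h1
    positivity
  · positivity

theorem cont_rp {n : ℕ} {S : Set (E n)} {x : E n} {y : ℝ} (hx : x ∉ S ∨ y ≠ 0) (p : ℝ) :
    ContinuousOn (fun w : E n => (‖x - w‖ ^ 2 + y ^ 2) ^ p) S := by
  apply ContinuousOn.rpow_const
  · exact (by fun_prop : Continuous fun w : E n => ‖x - w‖ ^ 2 + y ^ 2).continuousOn
  · intro w hw
    exact Or.inl (rho_pos hx w hw).ne'

/-- the algebra of the gradient inequality -/
theorem core {n : ℕ} {q : ℝ} (hn : 1 ≤ n) (hq : 0 < q) {S : Set (E n)} (hS : IsCompact S)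
    {ν : Measure (E n)} [IsFiniteMeasure ν] (hν : ν Sᶜ = 0) (x : E n) (y : ℝ)
    (hx : x ∉ S ∨ y ≠ 0) (N Gv : ℝ) (hG0 : 0 < GR q ν x y)
    (hid : n * Gv = q * UR q ν x y - N)
    (hlin : ∀ c : E n, x ≠ c →
      n / q * Gv ≤ ∫ z, ‖z - c‖ ^ 2 * (‖x - z‖ ^ 2 + y ^ 2) ^ (-q / 2 - 1) ∂ν) :
    (∑ j : Fin n, (deriv (fun ε : ℝ =>
        UR q ν (x + ε • EuclideanSpace.single j (1 : ℝ)) y) 0) ^ 2) +
      (deriv (fun ε : ℝ => UR q ν x (y + ε)) 0) ^ 2 ≤ q * N * GR q ν x y := by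
  obtain ⟨g, hg⟩ : ∃ g : E n → ℝ, g = fun w => (‖x - w‖ ^ 2 + y ^ 2) ^ (-q / 2 - 1) := ⟨_, rfl⟩
  have hgc : ContinuousOn g S := by rw [hg]; exact cont_rp hx _
  have hgi : Integrable g ν := integ hS hν g hgc
  obtain ⟨G, hG⟩ : ∃ G, G = GR q ν x y := ⟨_, rfl⟩
  obtain ⟨L, hL⟩ : ∃ L, L = UR q ν x y := ⟨_, rfl⟩
  have hGg : ∫ w, g w ∂ν = G := by rw [hG, hg]; rfl
  have hvi : Integrable (fun w => g w • (w - x)) ν := by
    apply integ hS hν
    exact hgc.smul (by fun_prop)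
  obtain ⟨V, hV⟩ : ∃ V : E n, V = ∫ w, g w • (w - x) ∂ν := ⟨_, rfl⟩
  -- first derivatives
  have hM : ∀ j : Fin n, deriv (fun ε : ℝ =>
        UR q ν (x + ε • EuclideanSpace.single j (1 : ℝ)) y) 0 = q * V j := by
    intro j
    have h2 := (UR_smooth hq hS hν x y hx (EuclideanSpace.single j (1 : ℝ)) 0).2.1
    simp only [mul_zero, add_zero] at h2
    rw [h2]
    have h3 : V j = ∫ w, (g w • (w - x)) j ∂ν := by
      rw [hV]
      exact ((EuclideanSpace.proj (𝕜 := ℝ) j).integral_comp_comm hvi).symm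
    rw [h3, ← integral_const_mul]
    refine integral_congr_ae (Eventually.of_forall fun w => ?_)
    have h4 : inner ℝ (x - w) (EuclideanSpace.single j (1 : ℝ)) = (x - w) j := by
      rw [EuclideanSpace.inner_single_right]
      simp
    simp only
    rw [h4, PiLp.smul_apply, PiLp.sub_apply, PiLp.sub_apply, smul_eq_mul, hg]
    ring
  have hY : deriv (fun ε : ℝ => UR q ν x (y + ε)) 0 = -(q * y * G) := by
    have h2 := (UR_smooth hq hS hν x y hx (0 : E n) 1).2.1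
    simp only [mul_one, smul_zero, add_zero, inner_zero_right, zero_add] at h2
    rw [h2, ← hGg, ← neg_mul, ← integral_const_mul]
    refine integral_congr_ae (Eventually.of_forall fun w => ?_)
    simp only [hg]
    ring
  have hVn : ∑ j : Fin n, (V j) ^ 2 = ‖V‖ ^ 2 := by
    rw [EuclideanSpace.real_norm_sq_eq]
  -- the quadratic polynomial
  have hquad : ∀ u : E n, ∫ z, ‖z - (x + u)‖ ^ 2 * (‖x - z‖ ^ 2 + y ^ 2) ^ (-q / 2 - 1) ∂ν =
      L - y ^ 2 * G - 2 * inner ℝ u V + ‖u‖ ^ 2 * G := by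
    intro u
    have i1 : Integrable (fun w : E n => (‖x - w‖ ^ 2 + y ^ 2) ^ (-q / 2)) ν :=
      integ hS hν _ (cont_rp hx _)
    have i2 : Integrable (fun w : E n => y ^ 2 * g w) ν := hgi.const_mul _
    have i3 : Integrable (fun w : E n => 2 * inner ℝ u (g w • (w - x))) ν :=
      (hvi.const_inner u).const_mul 2
    have i4 : Integrable (fun w : E n => ‖u‖ ^ 2 * g w) ν := hgi.const_mul _
    have e1 : inner ℝ u V = ∫ w, inner ℝ u (g w • (w - x)) ∂ν := by
      rw [hV, integral_inner hvi]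
    have e2 : L = ∫ w, (‖x - w‖ ^ 2 + y ^ 2) ^ (-q / 2) ∂ν := by rw [hL]; rfl
    have i12 : Integrable (fun w : E n => (‖x - w‖ ^ 2 + y ^ 2) ^ (-q / 2) - y ^ 2 * g w) ν :=
      i1.sub i2
    have i123 : Integrable (fun w : E n => (‖x - w‖ ^ 2 + y ^ 2) ^ (-q / 2) - y ^ 2 * g w -
      2 * inner ℝ u (g w • (w - x))) ν := i12.sub i3
    rw [e1, e2, ← hGg, ← integral_const_mul, ← integral_const_mul, ← integral_const_mul,
      ← integral_sub i1 i2, ← integral_sub i12 i3, ← integral_add i123 i4]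
    have hae : ∀ᵐ w ∂ν, w ∈ S := by rw [ae_iff]; exact hν
    refine integral_congr_ae ?_
    filter_upwards [hae] with w hw
    have hp := rho_pos hx w hw
    have h5 : (‖x - w‖ ^ 2 + y ^ 2) ^ (-q / 2) = (‖x - w‖ ^ 2 + y ^ 2) * g w := by
      rw [hg]
      simp only
      rw [← Real.rpow_one_add' hp.le]
      · congr 1
        ring
      · intro h
        have : q = 0 := by linarith
        exact hq.ne' this
    have h6 : ‖w - (x + u)‖ ^ 2 = ‖x - w‖ ^ 2 - 2 * inner ℝ u (w - x) + ‖u‖ ^ 2 := by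
      have h7 : w - (x + u) = (w - x) - u := by abel
      rw [h7, @norm_sub_sq_real, real_inner_comm, norm_sub_rev w x]
    rw [h5, h6, real_inner_smul_right, hg]
    ring
  -- optimisation
  have hmain : n / q * Gv ≤ L - y ^ 2 * G - ‖V‖ ^ 2 / G := by
    rw [← hG] at hG0
    by_cases hV0 : V = 0
    · rw [hV0, norm_zero]
      apply le_of_forall_pos_le_add
      intro ε hε
      have ht : 0 < ε / G := by positivity
      let j : Fin n := ⟨0, by omega⟩
      have hu0 : (Real.sqrt (ε / G)) • EuclideanSpace.single j (1 : ℝ) ≠ 0 := by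
        rw [smul_ne_zero_iff]
        refine ⟨(Real.sqrt_pos.2 ht).ne', ?_⟩
        intro h
        have h1 := congrArg (fun v : E n => v j) h
        simp at h1
      have h1 := hlin (x + (Real.sqrt (ε / G)) • EuclideanSpace.single j (1 : ℝ)) (by
        intro h
        apply hu0
        have h2 : x + 0 = x + (Real.sqrt (ε / G)) • EuclideanSpace.single j (1 : ℝ) := by
          rw [add_zero]; exact h
        exact (add_left_cancel h2).symm)
      rw [hquad, hV0, inner_zero_right, norm_smul, PiLp.norm_single, norm_one, mul_one,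
        Real.norm_eq_abs, sq_abs, Real.sq_sqrt ht.le, div_mul_cancel₀ _ hG0.ne'] at h1
      simpa using h1
    · have hu0 : (1 / G) • V ≠ 0 := by
        rw [smul_ne_zero_iff]
        exact ⟨by positivity, hV0⟩
      have h1 := hlin (x + (1 / G) • V) (by
        intro h
        apply hu0
        have h2 : x + 0 = x + (1 / G) • V := by
          rw [add_zero]; exact h
        exact (add_left_cancel h2).symm)
      rw [hquad, norm_smul, real_inner_smul_left, real_inner_self_eq_norm_sq, mul_pow,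
        Real.norm_eq_abs, sq_abs] at h1
      have h2 : L - y ^ 2 * G - 2 * (1 / G * ‖V‖ ^ 2) + (1 / G) ^ 2 * ‖V‖ ^ 2 * G =
          L - y ^ 2 * G - ‖V‖ ^ 2 / G := by
        field_simp
        ring
      rw [h2] at h1
      exact h1
  -- conclusion
  have hfin : (∑ j : Fin n, (deriv (fun ε : ℝ =>
        UR q ν (x + ε • EuclideanSpace.single j (1 : ℝ)) y) 0) ^ 2) = q ^ 2 * ‖V‖ ^ 2 := by
    rw [← hVn, Finset.mul_sum]
    refine Finset.sum_congr rfl fun j _ => ?_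
    rw [hM j]
    ring
  rw [hfin, hY, ← hG]
  rw [← hG] at hG0
  rw [← hL] at hid
  have h3 : n / q * Gv = L - N / q := by
    field_simp
    linear_combination hid
  rw [h3] at hmain
  have h4 : ‖V‖ ^ 2 / G + y ^ 2 * G ≤ N / q := by linarith
  have h5 : (‖V‖ ^ 2 / G + y ^ 2 * G) * (q ^ 2 * G) ≤ N / q * (q ^ 2 * G) :=
    mul_le_mul_of_nonneg_right h4 (by positivity)
  have h6 : (‖V‖ ^ 2 / G + y ^ 2 * G) * (q ^ 2 * G) = q ^ 2 * ‖V‖ ^ 2 + (-(q * y * G)) ^ 2 := by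
    field_simp
  have h7 : N / q * (q ^ 2 * G) = q * N * G := by
    field_simp
  linarith

/-- the linear inequality in the plane -/
theorem lin0 (hC : PCalc) (hL : PLin) {n : ℕ} {q : ℝ} (hn : 1 ≤ n) (hq : 0 < q)
    (hq1 : (n : ℝ) - 2 < q) (hq2 : q < n) {S : Set (E n)} {ν : Measure (E n)} (hS : IsCompact S)
    [IsFiniteMeasure ν] (hν : ν Sᶜ = 0) (hP : ∀ z, PE q ν z ≤ 1) (x c : E n) (hxc : x ≠ c)
    (hxS : x ∉ S) {κ : ℝ} (hκ : κ ∈ Ioo (0:ℝ) 1) (hE : Ec n q κ = UR q ν x 0) :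
    n / q * Gc n q κ ≤ ∫ z, ‖z - c‖ ^ 2 * (‖x - z‖ ^ 2 + 0 ^ 2) ^ (-q / 2 - 1) ∂ν := by
  obtain ⟨hB, hI, hE0, hE1, hEc, hEm, hEb, hEd, hGd, hGe, hT⟩ := hC n q hq hq2
  have hn0 : (0 : ℝ) < n := by exact_mod_cast hn
  by_contra hcon
  push Not at hcon
  obtain ⟨I0, hI0⟩ : ∃ I0, I0 = ∫ z, ‖z - c‖ ^ 2 * (‖x - z‖ ^ 2 + 0 ^ 2) ^ (-q / 2 - 1) ∂ν :=
    ⟨_, rfl⟩
  rw [← hI0] at hcon
  -- near `κ` the inequality is still violated
  have hGcont : ContinuousAt (fun k => n / q * Gc n q k) κ :=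
    (hGd κ hκ).continuousAt.const_mul _
  have hev := hGcont.eventually (lt_mem_nhds hcon)
  obtain ⟨δ, hδ, hball⟩ := Metric.eventually_nhds_iff.1 hev
  -- a point `κ1 < κ`
  obtain ⟨κ1, hκ1a, hκ1b, hκ1c⟩ : ∃ κ1, 0 < κ1 ∧ κ1 < κ ∧ κ - δ < κ1 := by
    refine ⟨max (κ / 2) (κ - δ / 2), ?_, ?_, ?_⟩
    · exact lt_max_of_lt_left (by linarith [hκ.1])
    · exact max_lt (by linarith [hκ.1]) (by linarith)
    · exact lt_max_of_lt_right (by linarith)
  have hElt : Ec n q κ1 < UR q ν x 0 := by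
    rw [← hE]
    exact hEm ⟨hκ1a.le, by linarith [hκ.2]⟩ ⟨hκ.1.le, hκ.2.le⟩ hκ1b
  -- continuity of the potential in `y`
  have hUcont : ContinuousAt (fun ε : ℝ => UR q ν x ε) 0 := by
    have h := (UR_smooth hq hS hν x 0 (Or.inl hxS) (0 : E n) 1).1.continuousAt
    simp only [mul_one, smul_zero, add_zero, zero_add] at h
    exact h
  have hev2 := hUcont.eventually (lt_mem_nhds hElt)
  obtain ⟨δ2, hδ2, hball2⟩ := Metric.eventually_nhds_iff.1 hev2
  have hy : 0 < δ2 / 2 := by positivity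
  have hU1 : Ec n q κ1 < UR q ν x (δ2 / 2) := by
    apply hball2
    rw [Real.dist_eq, sub_zero, abs_of_pos hy]
    linarith
  have hae : ∀ᵐ w ∂ν, w ∈ S := by rw [ae_iff]; exact hν
  have hmono : ∀ p : ℝ, p ≤ 0 → ∀ w ∈ S,
      (‖x - w‖ ^ 2 + (δ2 / 2) ^ 2) ^ p ≤ (‖x - w‖ ^ 2 + 0 ^ 2) ^ p := by
    intro p hp w hw
    apply Real.rpow_le_rpow_of_nonpos (rho_pos (Or.inl hxS) w hw) _ hp
    have := sq_nonneg (δ2 / 2)
    linarith
  have hU2 : UR q ν x (δ2 / 2) ≤ UR q ν x 0 := by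
    unfold UR
    refine integral_mono_ae (integ hS hν _ (cont_rp (Or.inr hy.ne') _))
      (integ hS hν _ (cont_rp (Or.inl hxS) _)) ?_
    filter_upwards [hae] with w hw
    exact hmono _ (by linarith) w hw
  -- intermediate value theorem
  have hcontI : ContinuousOn (Ec n q) (Icc κ1 κ) :=
    hEc.mono (fun t ht => le_trans hκ1a.le ht.1)
  obtain ⟨κ', hκ', hEκ'⟩ := intermediate_value_Icc hκ1b.le hcontI
    (show UR q ν x (δ2 / 2) ∈ Icc (Ec n q κ1) (Ec n q κ) from ⟨hU1.le, by rw [hE]; exact hU2⟩)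
  have h1 := hL n q hn hq hq1 hq2 S ν hS inferInstance hν hP x c hxc (δ2 / 2) hy κ'
    ⟨by linarith [hκ'.1], by linarith [hκ'.2, hκ.2]⟩ hEκ'
  have h2 : I0 < n / q * Gc n q κ' := by
    apply hball
    rw [Real.dist_eq, abs_lt]
    constructor
    · linarith [hκ'.1]
    · linarith [hκ'.2]
  have h3 : ∫ z, ‖z - c‖ ^ 2 * (‖x - z‖ ^ 2 + (δ2 / 2) ^ 2) ^ (-q / 2 - 1) ∂ν ≤ I0 := by
    rw [hI0]
    refine integral_mono_ae (integ hS hν _ (ContinuousOn.mul (by fun_prop)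
      (cont_rp (Or.inr hy.ne') _)))
      (integ hS hν _ (ContinuousOn.mul (by fun_prop) (cont_rp (Or.inl hxS) _))) ?_
    filter_upwards [hae] with w hw
    exact mul_le_mul_of_nonneg_left (hmono _ (by linarith) w hw) (sq_nonneg _)
  linarith

theorem pStar (hC : PCalc) (hL : PLin) : PStar := by
  intro n q hn hq hq1 hq2 S ν hS hfin hν hP x y hx κ hκ hE
  obtain ⟨hB, hI, hE0, hE1, hEc, hEm, hEb, hEd, hGd, hGe, hT⟩ := hC n q hq hq2
  have hUpos : 0 < UR q ν x y := by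
    rw [← hE, ← hE0]
    exact hEm ⟨le_rfl, zero_le_one⟩ ⟨hκ.1.le, hκ.2.le⟩ hκ.1
  have hν0 : ν Set.univ ≠ 0 := by
    intro h
    rw [Measure.measure_univ_eq_zero] at h
    rw [h] at hUpos
    simp [UR] at hUpos
  have hG0 := GR_pos hq hS hν hν0 x y hx
  have hid : n * Gc n q κ = q * UR q ν x y - Nc n q κ := by
    rw [← hE]
    exact hGe κ ⟨hκ.1.le, hκ.2.le⟩
  apply core hn hq hS hν x y hx (Nc n q κ) (Gc n q κ) hG0 hid
  intro c hxc
  by_cases hy : y = 0
  · subst hy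
    have hxS : x ∉ S := hx.resolve_right (fun h => h rfl)
    exact lin0 hC hL hn hq hq1 hq2 hS hν hP x c hxc hxS hκ hE
  · have hU : UR q ν x |y| = UR q ν x y := by
      unfold UR
      rw [sq_abs]
    have h := hL n q hn hq hq1 hq2 S ν hS hfin hν hP x c hxc |y| (abs_pos.2 hy) κ hκ
      (by rw [hE, hU])
    rw [sq_abs] at h
    exact h

end Pool.Agent.W363.RR
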